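import Mathlib

/-!
Almost sure convergence of the non-Gaussian multiplicative chaos measures built from random
polynomials on the unit circle, for arbitrary i.i.d. centered coefficients of variance one.

Idea: truncate the k-th coefficient at level sqrt k (by Borel-Cantelli only finitely many
coefficients change almost surely), and divide the k-th exponential factor by the constant
exp (dl k), where dl is summable.  Integrals of nonnegative test functions against the resulting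
product form nonnegative supermartingales, hence converge almost surely.  The total change is a
convergent deterministic constant times a random continuous function.
-/

open MeasureTheory ProbabilityTheory Filter Topology Set
open scoped ENNReal NNReal BoundedContinuousFunction

set_option linter.unusedSectionVars false

namespace Pool.Agent.Results.MP_ab74d4_pr.ChaosConvergence

lemma exp_le_cubic (γ y : ℝ) (hy : |y| ≤ 1) :
    Real.exp (γ * y) ≤ 1 + γ * y + γ ^ 2 / 2 * y ^ 2 + |γ| ^ 3 * Real.exp |γ| * |y| ^ 3 := by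
  have h := Complex.norm_exp_sub_sum_le_norm_mul_exp ((γ * y : ℝ) : ℂ) 3
  have h1 : Complex.exp ((γ * y : ℝ) : ℂ) -
      ∑ m ∈ Finset.range 3, ((γ * y : ℝ) : ℂ) ^ m / (m.factorial : ℂ)
      = ((Real.exp (γ * y) - (1 + γ * y + (γ * y) ^ 2 / 2) : ℝ) : ℂ) := by
    simp [Finset.sum_range_succ, Nat.factorial]
  rw [h1, Complex.norm_real, Complex.norm_real, Real.norm_eq_abs, Real.norm_eq_abs] at h
  have h2 := le_of_abs_le h
  have h3 : |γ * y| ^ 3 * Real.exp |γ * y| ≤ |γ| ^ 3 * Real.exp |γ| * |y| ^ 3 := by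
    have h4 : |γ * y| ≤ |γ| := by
      rw [abs_mul]
      exact mul_le_of_le_one_right (abs_nonneg _) hy
    have h5 : Real.exp |γ * y| ≤ Real.exp |γ| := Real.exp_le_exp.mpr h4
    calc |γ * y| ^ 3 * Real.exp |γ * y| ≤ |γ * y| ^ 3 * Real.exp |γ| := by gcongr
      _ = |γ| ^ 3 * Real.exp |γ| * |y| ^ 3 := by rw [abs_mul]; ring
  nlinarith [h2, h3]

lemma sum_low (t : ℝ) (ht : 0 ≤ t) (n : ℕ) :
    ∑ k ∈ Finset.range n, (if t ^ 2 ≤ (k : ℝ) + 1 then 0 else t / √((k : ℝ) + 1))
      ≤ 2 * t * min (√(n : ℝ)) t := by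
  induction n with
  | zero => simp [ht]
  | succ n ih =>
    rw [Finset.sum_range_succ]
    have hn : (0 : ℝ) ≤ (n : ℝ) := Nat.cast_nonneg n
    have hmono : min (√(n : ℝ)) t ≤ min (√((n + 1 : ℕ) : ℝ)) t := by
      apply min_le_min_right
      apply Real.sqrt_le_sqrt
      push_cast; linarith
    split_ifs with h
    · have : 2 * t * min (√(n : ℝ)) t ≤ 2 * t * min (√((n + 1 : ℕ) : ℝ)) t := by gcongr
      linarith
    · push Not at h
      have h1 : √((n : ℝ) + 1) ≤ t := by
        rw [show t = √(t ^ 2) by rw [Real.sqrt_sq ht]]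
        exact Real.sqrt_le_sqrt h.le
      have h2 : √((n + 1 : ℕ) : ℝ) ≤ t := by push_cast; exact h1
      have h3 : √(n : ℝ) ≤ t := le_trans (Real.sqrt_le_sqrt (by linarith)) h1
      rw [min_eq_left h2]
      rw [min_eq_left h3] at ih
      have hs1 : 0 < √((n : ℝ) + 1) := Real.sqrt_pos.mpr (by linarith)
      have hs0 : 0 ≤ √(n : ℝ) := Real.sqrt_nonneg _
      have e1 : √((n : ℝ) + 1) ^ 2 = n + 1 := Real.sq_sqrt (by linarith)
      have e0 : √(n : ℝ) ^ 2 = n := Real.sq_sqrt hn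
      have key : 1 / √((n : ℝ) + 1) ≤ 2 * (√((n : ℝ) + 1) - √(n : ℝ)) := by
        rw [div_le_iff₀ hs1]
        nlinarith [sq_nonneg (√((n : ℝ) + 1) - √(n : ℝ))]
      have : t / √((n : ℝ) + 1) ≤ t * (2 * (√((n : ℝ) + 1) - √(n : ℝ))) := by
        rw [div_eq_mul_one_div]
        gcongr
      push_cast
      nlinarith

lemma sum_high (t : ℝ) (ht : 0 ≤ t) (n : ℕ) :
    ∑ k ∈ Finset.range n, (if t ^ 2 ≤ (k : ℝ) + 1 then (t / √((k : ℝ) + 1)) ^ 3 else 0)
      ≤ 3 * t ^ 2 := by
  rcases ht.eq_or_lt with rfl | htp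
  · simp
  have claim : ∀ n : ℕ, (((n : ℝ) < t ^ 2 ∨ n = 0) →
      ∑ k ∈ Finset.range n, (if t ^ 2 ≤ (k : ℝ) + 1 then (1 / √((k : ℝ) + 1)) ^ 3 else 0) = 0) ∧
      ((t ^ 2 ≤ (n : ℝ) ∧ n ≠ 0) →
      ∑ k ∈ Finset.range n, (if t ^ 2 ≤ (k : ℝ) + 1 then (1 / √((k : ℝ) + 1)) ^ 3 else 0)
        ≤ 3 / t - 2 / √(n : ℝ)) := by
    intro n
    induction n with
    | zero => simp
    | succ n ih =>
      have hn : (0 : ℝ) ≤ (n : ℝ) := Nat.cast_nonneg n
      constructor
      · rintro (h | h)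
        · rw [Finset.sum_range_succ]
          push_cast at h
          rw [if_neg (not_le.mpr h), add_zero]
          apply ih.1
          left; linarith
        · omega
      · rintro ⟨h, -⟩
        push_cast at h
        rw [Finset.sum_range_succ, if_pos h]
        have hs1 : 0 < √((n : ℝ) + 1) := Real.sqrt_pos.mpr (by linarith)
        have e1 : √((n : ℝ) + 1) ^ 2 = n + 1 := Real.sq_sqrt (by linarith)
        have hge1 : 1 ≤ √((n : ℝ) + 1) := by
          rw [Real.one_le_sqrt]; linarith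
        push_cast
        by_cases h0 : t ^ 2 ≤ (n : ℝ) ∧ n ≠ 0
        · have ih2 := ih.2 h0
          have hnpos : (0 : ℝ) < n := by
            have := Nat.pos_of_ne_zero h0.2
            exact_mod_cast this
          have hs0 : 0 < √(n : ℝ) := Real.sqrt_pos.mpr hnpos
          have e0 : √(n : ℝ) ^ 2 = n := Real.sq_sqrt hn
          have hle : √(n : ℝ) ≤ √((n : ℝ) + 1) := Real.sqrt_le_sqrt (by linarith)
          have key : (1 / √((n : ℝ) + 1)) ^ 3 ≤ 2 / √(n : ℝ) - 2 / √((n : ℝ) + 1) := by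
            rw [div_sub_div _ _ hs0.ne' hs1.ne', div_pow, div_le_div_iff₀ (by positivity) (by positivity)]
            set a := √((n : ℝ) + 1) with ha
            set b := √(n : ℝ) with hb
            have hab : a ^ 2 - b ^ 2 = 1 := by rw [e1, e0]; ring
            have : (a - b) * (a + b) = 1 := by nlinarith
            have h5 : 1 ≤ (a - b) * (2 * a) := by nlinarith
            have h6 : 1 ^ 3 * (b * a) ≤ (2 * a - b * 2) * a ^ 3 := by
              have h7 : (2 * a - b * 2) * a ^ 3 = ((a - b) * (2 * a)) * (a * a) := by ring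
              rw [h7]
              have h8 : b * a ≤ a * a := by gcongr
              nlinarith [mul_pos hs1 hs1]
            exact h6
          linarith
        · have h0' : (n : ℝ) < t ^ 2 ∨ n = 0 := by
            by_contra hcon
            push Not at hcon
            exact h0 ⟨hcon.1, hcon.2⟩
          rw [ih.1 h0', zero_add]
          have ht1 : t ≤ √((n : ℝ) + 1) := by
            rw [show t = √(t ^ 2) by rw [Real.sqrt_sq ht]]
            exact Real.sqrt_le_sqrt h
          have h3 : 3 / √((n : ℝ) + 1) ≤ 3 / t := by gcongr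
          have h4 : (1 / √((n : ℝ) + 1)) ^ 3 ≤ 1 / √((n : ℝ) + 1) := by
            have h41 : 1 / √((n : ℝ) + 1) ≤ 1 := by
              rw [div_le_one hs1]; exact hge1
            have h40 : 0 ≤ 1 / √((n : ℝ) + 1) := by positivity
            calc (1 / √((n : ℝ) + 1)) ^ 3 ≤ (1 / √((n : ℝ) + 1)) ^ 1 :=
                  pow_le_pow_of_le_one h40 h41 (by norm_num)
              _ = _ := pow_one _
          have h5 : 3 / √((n : ℝ) + 1) - 2 / √((n : ℝ) + 1) = 1 / √((n : ℝ) + 1) := by ring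
          linarith
  have hb : ∑ k ∈ Finset.range n, (if t ^ 2 ≤ (k : ℝ) + 1 then (1 / √((k : ℝ) + 1)) ^ 3 else 0)
      ≤ 3 / t := by
    by_cases h0 : t ^ 2 ≤ (n : ℝ) ∧ n ≠ 0
    · have := (claim n).2 h0
      have h2 : 0 ≤ 2 / √(n : ℝ) := by positivity
      linarith
    · have h0' : (n : ℝ) < t ^ 2 ∨ n = 0 := by
        by_contra hcon
        push Not at hcon
        exact h0 ⟨hcon.1, hcon.2⟩
      rw [(claim n).1 h0']
      positivity
  have : ∑ k ∈ Finset.range n, (if t ^ 2 ≤ (k : ℝ) + 1 then (t / √((k : ℝ) + 1)) ^ 3 else 0)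
      = t ^ 3 * ∑ k ∈ Finset.range n, (if t ^ 2 ≤ (k : ℝ) + 1 then (1 / √((k : ℝ) + 1)) ^ 3 else 0) := by
    rw [Finset.mul_sum]
    apply Finset.sum_congr rfl
    intro k _
    split_ifs
    · field_simp
    · simp
  rw [this]
  calc t ^ 3 * _ ≤ t ^ 3 * (3 / t) := by gcongr
    _ = 3 * t ^ 2 := by field_simp

section Topo

variable {K : Type*} [TopologicalSpace K] [CompactSpace K] [MeasurableSpace K] [BorelSpace K]

/-- Weak convergence on a compact space can be tested on a dense set of continuous functions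
together with the total mass. -/
lemma tendsto_of_dense {ι : Type*} {l : Filter ι} (μ : ι → FiniteMeasure K) (ν : FiniteMeasure K)
    (D : Set C(K, ℝ)) (hD : Dense D)
    (h1 : Tendsto (fun i => ∫ x, (1 : C(K, ℝ)) x ∂(μ i : Measure K)) l
      (𝓝 (∫ x, (1 : C(K, ℝ)) x ∂(ν : Measure K))))
    (h : ∀ f ∈ D, Tendsto (fun i => ∫ x, f x ∂(μ i : Measure K)) l
      (𝓝 (∫ x, f x ∂(ν : Measure K)))) :
    Tendsto μ l (𝓝 ν) := by
  rw [FiniteMeasure.tendsto_iff_forall_integral_tendsto]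
  intro f
  have hint : ∀ (ρ : FiniteMeasure K) (g : C(K, ℝ)), Integrable (fun x => g x) (ρ : Measure K) := by
    intro ρ g
    exact (BoundedContinuousFunction.mkOfCompact g).integrable _
  have hmass : ∀ ρ : FiniteMeasure K, ∫ x, (1 : C(K, ℝ)) x ∂(ρ : Measure K) = (ρ.mass : ℝ) := by
    intro ρ
    simp [FiniteMeasure.mass, Measure.real]
    rfl
  rw [Metric.tendsto_nhds]
  intro ε hε
  set M : ℝ := (ν.mass : ℝ) + 1 with hM
  have hMpos : 0 < M := by positivity
  obtain ⟨g, hgD, hg⟩ := hD.exists_dist_lt f.toContinuousMap (show 0 < ε / (4 * M) by positivity)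
  have hclose : ∀ x, |f x - g x| ≤ ε / (4 * M) := by
    intro x
    have := ContinuousMap.dist_apply_le_dist (f := f.toContinuousMap) (g := g) x
    rw [Real.dist_eq] at this
    exact this.trans hg.le
  have hdiff : ∀ ρ : FiniteMeasure K, |∫ x, f x ∂(ρ : Measure K) - ∫ x, g x ∂(ρ : Measure K)|
      ≤ ε / (4 * M) * (ρ.mass : ℝ) := by
    intro ρ
    have hf : Integrable (fun x => f x) (ρ : Measure K) := f.integrable _
    rw [← integral_sub hf (hint ρ g)]
    rw [← Real.norm_eq_abs]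
    have := norm_integral_le_of_norm_le_const (μ := (ρ : Measure K)) (f := fun x => f x - g x)
      (C := ε / (4 * M)) (Eventually.of_forall (fun x => by simpa using hclose x))
    refine this.trans (le_of_eq ?_)
    rfl
  have h1' : ∀ᶠ i in l, ((μ i).mass : ℝ) < M := by
    rw [hmass ν] at h1
    have : ∀ᶠ i in l, ∫ x, (1 : C(K, ℝ)) x ∂(μ i : Measure K) < M :=
      h1.eventually_lt_const (by rw [hM]; linarith)
    filter_upwards [this] with i hi
    rwa [hmass] at hi
  have h2' := (Metric.tendsto_nhds.mp (h g hgD)) (ε / 4) (by positivity)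
  filter_upwards [h1', h2'] with i hi1 hi2
  rw [Real.dist_eq] at hi2 ⊢
  have e1 := hdiff (μ i)
  have e2 := hdiff ν
  have e3 : ε / (4 * M) * ((μ i).mass : ℝ) ≤ ε / 4 := by
    calc ε / (4 * M) * ((μ i).mass : ℝ) ≤ ε / (4 * M) * M := by gcongr
      _ = ε / 4 := by field_simp
  have e4 : ε / (4 * M) * (ν.mass : ℝ) ≤ ε / 4 := by
    calc ε / (4 * M) * (ν.mass : ℝ) ≤ ε / (4 * M) * M := by
          gcongr; rw [hM]; linarith
      _ = ε / 4 := by field_simp
  rw [abs_lt] at hi2 ⊢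
  rw [abs_le] at e1 e2
  constructor <;> linarith [e1.1, e1.2, e2.1, e2.2, hi2.1, hi2.2]

/-- A sequence of finite measures on a compact space all of whose integrals against continuous
functions converge has a weak limit. -/
lemma exists_limit [T2Space K] (μ : ℕ → FiniteMeasure K)
    (h : ∀ f : C(K, ℝ), ∃ c, Tendsto (fun n => ∫ x, f x ∂(μ n : Measure K)) atTop (𝓝 c)) :
    ∃ ν : FiniteMeasure K, Tendsto μ atTop (𝓝 ν) := by
  have hmass : ∀ ρ : FiniteMeasure K, ∫ x, (1 : C(K, ℝ)) x ∂(ρ : Measure K) = (ρ.mass : ℝ) := by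
    intro ρ
    simp [FiniteMeasure.mass, Measure.real]
    rfl
  obtain ⟨c, hc⟩ := h 1
  simp only [hmass] at hc
  obtain ⟨C, hC⟩ := hc.bddAbove_range
  have hC0 : ∀ n, ((μ n).mass : ℝ) ≤ C := fun n => hC (mem_range_self n)
  have hCnn : 0 ≤ C := le_trans (by positivity) (hC0 0)
  have hcomp := isCompact_setOfPred_finiteMeasure_le_of_compactSpace K (⟨C, hCnn⟩ : ℝ≥0)
  have hmem : ∀ n, μ n ∈ {ρ : FiniteMeasure K | ρ.mass ≤ (⟨C, hCnn⟩ : ℝ≥0)} := by
    intro n
    have := hC0 n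
    exact_mod_cast this
  obtain ⟨ν, -, hν⟩ := hcomp.exists_mapClusterPt (f := atTop) (u := μ)
    (tendsto_principal.mpr (Eventually.of_forall hmem))
  refine ⟨ν, ?_⟩
  rw [FiniteMeasure.tendsto_iff_forall_integral_tendsto]
  intro f
  obtain ⟨d, hd⟩ := h f.toContinuousMap
  have hcont : Continuous (fun ρ : FiniteMeasure K => ∫ x, f x ∂(ρ : Measure K)) := by
    rw [continuous_iff_continuousAt]
    intro ρ
    exact (FiniteMeasure.tendsto_iff_forall_integral_tendsto.mp tendsto_id) f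
  have hcl : MapClusterPt (∫ x, f x ∂(ν : Measure K)) atTop
      (fun n => ∫ x, f x ∂(μ n : Measure K)) :=
    hν.continuousAt_comp hcont.continuousAt
  have : ∫ x, f x ∂(ν : Measure K) = d := by
    by_contra hne
    have hdisj := disjoint_nhds_nhds.mpr hne
    have h2 : MapClusterPt (∫ x, f x ∂(ν : Measure K)) atTop
      (fun n => ∫ x, f x ∂(μ n : Measure K)) := hcl
    rw [mapClusterPt_iff_frequently] at h2
    obtain ⟨s, hs, t, ht, hst⟩ := Filter.disjoint_iff.mp hdisj
    have h3 := h2 s hs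
    have h4 : ∀ᶠ n in atTop, (∫ x, f x ∂(μ n : Measure K)) ∈ t := hd.eventually_mem ht
    obtain ⟨n, hn1, hn2⟩ := (h3.and_eventually h4).exists
    exact Set.disjoint_left.mp hst hn1 hn2
  rw [this]
  exact hd

/-- Borel measurability (for the weak topology) of a map into the finite measures on a compact
metrizable space, from measurability of the integrals of continuous functions. -/
lemma measurable_borel {Ω : Type*} [MeasurableSpace Ω] [TopologicalSpace.MetrizableSpace K]
    (X : Ω → FiniteMeasure K)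
    (h : ∀ f : C(K, ℝ), Measurable (fun ω => ∫ x, f x ∂(X ω : Measure K))) :
    @Measurable Ω (FiniteMeasure K) _ (borel (FiniteMeasure K)) X := by
  obtain ⟨D, hDc, hDd⟩ := TopologicalSpace.exists_countable_dense C(K, ℝ)
  let D' : Set C(K, ℝ) := insert 1 D
  have hD'c : D'.Countable := hDc.insert 1
  have hD'd : Dense D' := hDd.mono (subset_insert 1 D)
  have : Countable D' := hD'c.to_subtype
  let J : FiniteMeasure K → (D' → ℝ) := fun ρ f => ∫ x, (f : C(K, ℝ)) x ∂(ρ : Measure K)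
  have hJ : IsInducing J := by
    rw [isInducing_iff_nhds]
    intro ρ
    apply le_antisymm
    · rw [← tendsto_iff_comap]
      rw [tendsto_pi_nhds]
      intro f
      exact (FiniteMeasure.tendsto_iff_forall_integral_tendsto.mp tendsto_id)
        (BoundedContinuousFunction.mkOfCompact (f : C(K, ℝ)))
    · have hcomap : Tendsto J (comap J (𝓝 (J ρ))) (𝓝 (J ρ)) := tendsto_comap
      rw [tendsto_pi_nhds] at hcomap
      have := tendsto_of_dense (l := comap J (𝓝 (J ρ))) id ρ D' hD'd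
        (hcomap ⟨1, mem_insert 1 D⟩) (fun f hf => hcomap ⟨f, hf⟩)
      exact this
  have hb : borel (FiniteMeasure K) = MeasurableSpace.comap J (borel (D' → ℝ)) := by
    rw [hJ.eq_induced]
    exact borel_comap
  rw [hb, measurable_comap_iff, ← BorelSpace.measurable_eq]
  rw [measurable_pi_iff]
  intro f
  exact h f

end Topo

/-- tail part -/
noncomputable def low (k : ℕ) (t : ℝ) : ℝ := if t ^ 2 ≤ (k : ℝ) + 1 then 0 else t / √((k : ℝ) + 1)
/-- bulk part -/
noncomputable def high (k : ℕ) (t : ℝ) : ℝ :=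
  if t ^ 2 ≤ (k : ℝ) + 1 then (t / √((k : ℝ) + 1)) ^ 3 else 0

lemma measurable_low (k : ℕ) : Measurable (low k) := by
  unfold low
  exact Measurable.ite (measurableSet_le (by fun_prop) (by fun_prop)) (by fun_prop) (by fun_prop)

lemma measurable_high (k : ℕ) : Measurable (high k) := by
  unfold high
  exact Measurable.ite (measurableSet_le (by fun_prop) (by fun_prop)) (by fun_prop) (by fun_prop)

lemma low_nonneg (k : ℕ) {t : ℝ} (ht : 0 ≤ t) : 0 ≤ low k t := by
  unfold low; split_ifs <;> positivity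

lemma high_nonneg (k : ℕ) {t : ℝ} (ht : 0 ≤ t) : 0 ≤ high k t := by
  unfold high; split_ifs <;> positivity

lemma low_le (k : ℕ) {t : ℝ} (ht : 0 ≤ t) : low k t ≤ t := by
  unfold low; split_ifs
  · exact ht
  · apply div_le_self ht
    rw [Real.one_le_sqrt]; linarith [(Nat.cast_nonneg k : (0 : ℝ) ≤ k)]

lemma high_le (k : ℕ) {t : ℝ} (ht : 0 ≤ t) : high k t ≤ 1 := by
  unfold high; split_ifs with h
  · apply pow_le_one₀ (by positivity)
    rw [div_le_one (by positivity)]
    exact Real.le_sqrt_of_sq_le h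
  · norm_num

variable {K : Type*} [TopologicalSpace K] [CompactSpace K] [MeasurableSpace K] [BorelSpace K]
  [TopologicalSpace.MetrizableSpace K]
variable {Ω : Type*} {mΩ : MeasurableSpace Ω}

/-- truncation of the coefficient -/
noncomputable def tr (k : ℕ) (c : ℂ) : ℂ := if ‖c‖ ^ 2 ≤ (k : ℝ) + 1 then c else 0

/-- real part of the summand with coefficient `c` -/
noncomputable def xx (φ : ℕ → C(K, ℂ)) (k : ℕ) (c : ℂ) (z : K) : ℝ :=
  (c * φ k z).re / √((k : ℝ) + 1)

lemma measurable_tr (k : ℕ) : Measurable (tr k) := by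
  unfold tr
  exact Measurable.ite (measurableSet_le (by fun_prop) (by fun_prop)) (by fun_prop) (by fun_prop)

lemma abs_xx_le (φ : ℕ → C(K, ℂ)) (hφ : ∀ k z, ‖φ k z‖ ≤ 1) (k : ℕ) (c : ℂ) (z : K) :
    |xx φ k c z| ≤ ‖c‖ / √((k : ℝ) + 1) := by
  unfold xx
  rw [abs_div, abs_of_nonneg (Real.sqrt_nonneg _)]
  gcongr
  calc |(c * φ k z).re| ≤ ‖c * φ k z‖ := Complex.abs_re_le_norm _
    _ = ‖c‖ * ‖φ k z‖ := norm_mul _ _
    _ ≤ ‖c‖ * 1 := by gcongr; exact hφ k z
    _ = ‖c‖ := mul_one _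

lemma abs_xx_tr_le_one (φ : ℕ → C(K, ℂ)) (hφ : ∀ k z, ‖φ k z‖ ≤ 1) (k : ℕ) (c : ℂ) (z : K) :
    |xx φ k (tr k c) z| ≤ 1 := by
  refine (abs_xx_le φ hφ k _ z).trans ?_
  rw [div_le_one (by positivity)]
  unfold tr
  split_ifs with h
  · exact Real.le_sqrt_of_sq_le h
  · simp

lemma measurable_xx (φ : ℕ → C(K, ℂ)) (k : ℕ) :
    Measurable (fun p : ℂ × K => xx φ k p.1 p.2) := by
  unfold xx
  have h1 : Measurable (fun p : ℂ × K => φ k p.2) := (φ k).continuous.measurable.comp measurable_snd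
  have h2 : Measurable (fun p : ℂ × K => p.1) := measurable_fst
  exact (Complex.measurable_re.comp (h2.mul h1)).div_const _

lemma continuous_xx (φ : ℕ → C(K, ℂ)) (k : ℕ) (c : ℂ) : Continuous (xx φ k c) := by
  unfold xx
  have : Continuous (fun z => c * φ k z) := continuous_const.mul (φ k).continuous
  exact (Complex.continuous_re.comp this).div_const _

/-- second moment of the summand -/
noncomputable def vv (P : Measure Ω) (ξ : ℕ → Ω → ℂ) (φ : ℕ → C(K, ℂ)) (k : ℕ) (z : K) : ℝ :=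
  ∫ ω, (xx φ k (ξ k ω) z) ^ 2 ∂P

/-- the summable correction -/
noncomputable def dl (P : Measure Ω) (ξ : ℕ → Ω → ℂ) (γ : ℝ) (k : ℕ) : ℝ :=
  |γ| * ∫ ω, low k ‖ξ k ω‖ ∂P + |γ| ^ 3 * Real.exp |γ| * ∫ ω, high k ‖ξ k ω‖ ∂P

/-- one factor of the corrected exponential product -/
noncomputable def GG (P : Measure Ω) (ξ : ℕ → Ω → ℂ) (φ : ℕ → C(K, ℂ)) (γ : ℝ) (k : ℕ) (c : ℂ)
    (z : K) : ℝ :=
  Real.exp (γ * xx φ k (tr k c) z - γ ^ 2 / 2 * vv P ξ φ k z - dl P ξ γ k)

variable (P : Measure Ω) [IsProbabilityMeasure P] (ξ : ℕ → Ω → ℂ)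
  (hm : ∀ k, Measurable (ξ k)) (hL : ∀ k, MemLp (ξ k) 2 P) (hmean : ∀ k, ∫ ω, ξ k ω ∂P = 0)
  (φ : ℕ → C(K, ℂ)) (hφ : ∀ k z, ‖φ k z‖ ≤ 1) (γ : ℝ)

include hm in
lemma measurable_xx_xi (k : ℕ) (z : K) : Measurable (fun ω => xx φ k (ξ k ω) z) :=
  (measurable_xx φ k).comp ((hm k).prodMk measurable_const)

include hm hL hφ in
lemma memLp_xx (k : ℕ) (z : K) : MemLp (fun ω => xx φ k (ξ k ω) z) 2 P := by
  refine (hL k).of_le (measurable_xx_xi ξ hm φ k z).aestronglyMeasurable (ae_of_all _ fun ω => ?_)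
  rw [Real.norm_eq_abs]
  refine (abs_xx_le φ hφ k _ z).trans (div_le_self (norm_nonneg _) ?_)
  rw [Real.one_le_sqrt]; linarith [(Nat.cast_nonneg k : (0 : ℝ) ≤ k)]

include hm hL hφ in
lemma continuous_vv (k : ℕ) : Continuous (vv P ξ φ k) := by
  unfold vv
  apply continuous_of_dominated (bound := fun ω => ‖ξ k ω‖ ^ 2)
  · intro z
    exact ((measurable_xx_xi ξ hm φ k z).pow_const 2).aestronglyMeasurable
  · intro z
    refine ae_of_all _ fun ω => ?_
    rw [norm_pow, Real.norm_eq_abs]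
    gcongr
    refine (abs_xx_le φ hφ k _ z).trans (div_le_self (norm_nonneg _) ?_)
    rw [Real.one_le_sqrt]; linarith [(Nat.cast_nonneg k : (0 : ℝ) ≤ k)]
  · exact (hL k).integrable_norm_pow (by norm_num)
  · exact ae_of_all _ fun ω => (continuous_xx φ k (ξ k ω)).pow 2

lemma vv_nonneg (k : ℕ) (z : K) : 0 ≤ vv P ξ φ k z := by
  unfold vv
  exact integral_nonneg fun ω => sq_nonneg _

lemma dl_nonneg (k : ℕ) : 0 ≤ dl P ξ γ k := by
  unfold dl
  have h1 : 0 ≤ ∫ ω, low k ‖ξ k ω‖ ∂P := integral_nonneg fun ω => low_nonneg k (norm_nonneg _)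
  have h2 : 0 ≤ ∫ ω, high k ‖ξ k ω‖ ∂P := integral_nonneg fun ω => high_nonneg k (norm_nonneg _)
  positivity

include hm hL in
lemma integrable_low (k j : ℕ) : Integrable (fun ω => low k ‖ξ j ω‖) P := by
  have h1 : Integrable (fun ω => ‖ξ j ω‖) P := ((hL j).integrable (by norm_num)).norm
  refine h1.mono ((measurable_low k).comp (hm j).norm).aestronglyMeasurable
    (ae_of_all _ fun ω => ?_)
  rw [Real.norm_eq_abs, Real.norm_eq_abs, abs_of_nonneg (low_nonneg k (norm_nonneg _)),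
    abs_of_nonneg (norm_nonneg _)]
  exact low_le k (norm_nonneg _)

include hm in
lemma integrable_high (k j : ℕ) : Integrable (fun ω => high k ‖ξ j ω‖) P := by
  refine Integrable.of_bound ((measurable_high k).comp (hm j).norm).aestronglyMeasurable 1
    (ae_of_all _ fun ω => ?_)
  rw [Real.norm_eq_abs, abs_of_nonneg (high_nonneg k (norm_nonneg _))]
  exact high_le k (norm_nonneg _)

include hm hL hmean hφ in
lemma integral_GG_le_one (k : ℕ) (z : K) : ∫ ω, GG P ξ φ γ k (ξ k ω) z ∂P ≤ 1 := by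
  set y : Ω → ℝ := fun ω => xx φ k (tr k (ξ k ω)) z with hy
  have hymeas : Measurable y :=
    (measurable_xx φ k).comp (((measurable_tr k).comp (hm k)).prodMk measurable_const)
  have hyb : ∀ ω, |y ω| ≤ 1 := fun ω => abs_xx_tr_le_one φ hφ k _ z
  have hyint : Integrable y P :=
    Integrable.of_bound hymeas.aestronglyMeasurable 1 (ae_of_all _ fun ω => by
      rw [Real.norm_eq_abs]; exact hyb ω)
  have hy2int : Integrable (fun ω => y ω ^ 2) P :=
    Integrable.of_bound (hymeas.pow_const 2).aestronglyMeasurable 1 (ae_of_all _ fun ω => by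
      rw [norm_pow, Real.norm_eq_abs]; exact pow_le_one₀ (abs_nonneg _) (hyb ω))
  have hy3int : Integrable (fun ω => |y ω| ^ 3) P :=
    Integrable.of_bound (hymeas.abs.pow_const 3).aestronglyMeasurable 1 (ae_of_all _ fun ω => by
      rw [norm_pow, Real.norm_eq_abs, abs_abs]; exact pow_le_one₀ (abs_nonneg _) (hyb ω))
  have hxint : Integrable (fun ω => xx φ k (ξ k ω) z) P :=
    (memLp_xx P ξ hm hL φ hφ k z).integrable (by norm_num)
  have hx2int : Integrable (fun ω => (xx φ k (ξ k ω) z) ^ 2) P :=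
    (memLp_xx P ξ hm hL φ hφ k z).integrable_sq
  have hξint : Integrable (ξ k) P := (hL k).integrable (by norm_num)
  -- mean zero
  have hx0 : ∫ ω, xx φ k (ξ k ω) z ∂P = 0 := by
    unfold xx
    rw [integral_div]
    have h1 : ∫ ω, (ξ k ω * φ k z).re ∂P = (∫ ω, ξ k ω * φ k z ∂P).re := by
      have := integral_re (hξint.mul_const (φ k z))
      simpa using this
    rw [h1, integral_mul_const, hmean k]
    simp
  have hlow : ∀ ω, |xx φ k (ξ k ω) z - y ω| ≤ low k ‖ξ k ω‖ := by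
    intro ω
    simp only [hy, tr, low]
    split_ifs with h
    · simp
    · have : xx φ k 0 z = 0 := by simp [xx]
      rw [this, sub_zero]
      exact abs_xx_le φ hφ k _ z
  have hmeany : γ * ∫ ω, y ω ∂P ≤ |γ| * ∫ ω, low k ‖ξ k ω‖ ∂P := by
    have h1 : |∫ ω, y ω ∂P| ≤ ∫ ω, low k ‖ξ k ω‖ ∂P := by
      have h2 : ∫ ω, y ω ∂P = - ∫ ω, (xx φ k (ξ k ω) z - y ω) ∂P := by
        rw [integral_sub hxint hyint, hx0]; ring
      rw [h2, abs_neg]
      refine (abs_integral_le_integral_abs).trans ?_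
      exact integral_mono (hxint.sub hyint).abs (integrable_low P ξ hm hL k k) hlow
    calc γ * ∫ ω, y ω ∂P ≤ |γ * ∫ ω, y ω ∂P| := le_abs_self _
      _ = |γ| * |∫ ω, y ω ∂P| := abs_mul _ _
      _ ≤ _ := by gcongr
  have hsq : ∫ ω, y ω ^ 2 ∂P ≤ vv P ξ φ k z := by
    unfold vv
    apply integral_mono hy2int hx2int
    intro ω
    simp only [hy, tr]
    split_ifs with h
    · exact le_rfl
    · have : xx φ k 0 z = 0 := by simp [xx]
      rw [this]
      have := sq_nonneg (xx φ k (ξ k ω) z)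
      linarith
  have hcub : ∫ ω, |y ω| ^ 3 ∂P ≤ ∫ ω, high k ‖ξ k ω‖ ∂P := by
    apply integral_mono hy3int (integrable_high P ξ hm k k)
    intro ω
    simp only [hy, tr, high]
    split_ifs with h
    · exact pow_le_pow_left₀ (abs_nonneg _) (abs_xx_le φ hφ k _ z) 3
    · simp [xx]
  have hexp : ∫ ω, Real.exp (γ * y ω) ∂P ≤ Real.exp (γ ^ 2 / 2 * vv P ξ φ k z + dl P ξ γ k) := by
    have h1 : ∫ ω, Real.exp (γ * y ω) ∂P ≤
        ∫ ω, (1 + γ * y ω + γ ^ 2 / 2 * y ω ^ 2 + |γ| ^ 3 * Real.exp |γ| * |y ω| ^ 3) ∂P := by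
      apply integral_mono
      · refine Integrable.of_bound (by fun_prop) (Real.exp |γ|) (ae_of_all _ fun ω => ?_)
        rw [Real.norm_eq_abs, Real.abs_exp]
        apply Real.exp_le_exp.mpr
        calc γ * y ω ≤ |γ * y ω| := le_abs_self _
          _ = |γ| * |y ω| := abs_mul _ _
          _ ≤ |γ| * 1 := by gcongr; exact hyb ω
          _ = |γ| := mul_one _
      · exact ((((integrable_const 1).add (hyint.const_mul γ)).add
          (hy2int.const_mul (γ ^ 2 / 2))).add (hy3int.const_mul _))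
      · intro ω
        exact exp_le_cubic γ (y ω) (hyb ω)
    have h2 : ∫ ω, (1 + γ * y ω + γ ^ 2 / 2 * y ω ^ 2 + |γ| ^ 3 * Real.exp |γ| * |y ω| ^ 3) ∂P
        = 1 + γ * ∫ ω, y ω ∂P + γ ^ 2 / 2 * ∫ ω, y ω ^ 2 ∂P
          + |γ| ^ 3 * Real.exp |γ| * ∫ ω, |y ω| ^ 3 ∂P := by
      rw [integral_add (f := fun ω => 1 + γ * y ω + γ ^ 2 / 2 * y ω ^ 2)
          (g := fun ω => |γ| ^ 3 * Real.exp |γ| * |y ω| ^ 3)
          (((integrable_const 1).add (hyint.const_mul γ)).add
          (hy2int.const_mul (γ ^ 2 / 2))) (hy3int.const_mul _),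
        integral_add (f := fun ω => 1 + γ * y ω) (g := fun ω => γ ^ 2 / 2 * y ω ^ 2)
          ((integrable_const 1).add (hyint.const_mul γ)) (hy2int.const_mul (γ ^ 2 / 2)),
        integral_add (f := fun _ => 1) (g := fun ω => γ * y ω)
          (integrable_const 1) (hyint.const_mul γ)]
      simp [integral_const_mul]
    have h3 : 1 + γ * ∫ ω, y ω ∂P + γ ^ 2 / 2 * ∫ ω, y ω ^ 2 ∂P
          + |γ| ^ 3 * Real.exp |γ| * ∫ ω, |y ω| ^ 3 ∂P
          ≤ (γ ^ 2 / 2 * vv P ξ φ k z + dl P ξ γ k) + 1 := by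
      have e1 : γ ^ 2 / 2 * ∫ ω, y ω ^ 2 ∂P ≤ γ ^ 2 / 2 * vv P ξ φ k z := by gcongr
      have e2 : |γ| ^ 3 * Real.exp |γ| * ∫ ω, |y ω| ^ 3 ∂P ≤
        |γ| ^ 3 * Real.exp |γ| * ∫ ω, high k ‖ξ k ω‖ ∂P := by gcongr
      unfold dl
      linarith
    exact (h1.trans (h2.le.trans h3)).trans (Real.add_one_le_exp _)
  have hG : ∀ ω, GG P ξ φ γ k (ξ k ω) z =
      Real.exp (-(γ ^ 2 / 2 * vv P ξ φ k z + dl P ξ γ k)) * Real.exp (γ * y ω) := by
    intro ω
    unfold GG
    rw [← Real.exp_add]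
    congr 1
    simp only [hy]; ring
  simp only [hG]
  rw [integral_const_mul]
  calc Real.exp (-(γ ^ 2 / 2 * vv P ξ φ k z + dl P ξ γ k)) * ∫ ω, Real.exp (γ * y ω) ∂P
      ≤ Real.exp (-(γ ^ 2 / 2 * vv P ξ φ k z + dl P ξ γ k)) *
        Real.exp (γ ^ 2 / 2 * vv P ξ φ k z + dl P ξ γ k) := by gcongr
    _ = 1 := by rw [← Real.exp_add]; simp

lemma GG_pos (k : ℕ) (c : ℂ) (z : K) : 0 < GG P ξ φ γ k c z := Real.exp_pos _

include hφ in
lemma GG_le (k : ℕ) (c : ℂ) (z : K) : GG P ξ φ γ k c z ≤ Real.exp |γ| := by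
  unfold GG
  apply Real.exp_le_exp.mpr
  have h1 : γ * xx φ k (tr k c) z ≤ |γ| := by
    calc γ * xx φ k (tr k c) z ≤ |γ * xx φ k (tr k c) z| := le_abs_self _
      _ = |γ| * |xx φ k (tr k c) z| := abs_mul _ _
      _ ≤ |γ| * 1 := by gcongr; exact abs_xx_tr_le_one φ hφ k c z
      _ = |γ| := mul_one _
  have h2 := vv_nonneg P ξ φ k z
  have h3 := dl_nonneg P ξ γ k
  have h4 : 0 ≤ γ ^ 2 / 2 * vv P ξ φ k z := by positivity
  linarith

include hm hL hφ in
lemma measurable_GG (k : ℕ) : Measurable (fun p : ℂ × K => GG P ξ φ γ k p.1 p.2) := by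
  unfold GG
  have h1 : Measurable (fun p : ℂ × K => xx φ k (tr k p.1) p.2) :=
    (measurable_xx φ k).comp (((measurable_tr k).comp measurable_fst).prodMk measurable_snd)
  have h2 : Measurable (fun p : ℂ × K => vv P ξ φ k p.2) :=
    (continuous_vv P ξ hm hL φ hφ k).measurable.comp measurable_snd
  exact (((h1.const_mul γ).sub (h2.const_mul _)).sub_const _).exp

/-- the corrected exponential product -/
noncomputable def NN (n : ℕ) (ω : Ω) (z : K) : ℝ :=
  ∏ k ∈ Finset.range n, GG P ξ φ γ k (ξ k ω) z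

lemma NN_pos (n : ℕ) (ω : Ω) (z : K) : 0 < NN P ξ φ γ n ω z :=
  Finset.prod_pos fun k _ => GG_pos P ξ φ γ k _ z

include hφ in
lemma NN_le (n : ℕ) (ω : Ω) (z : K) : NN P ξ φ γ n ω z ≤ Real.exp |γ| ^ n := by
  unfold NN
  calc ∏ k ∈ Finset.range n, GG P ξ φ γ k (ξ k ω) z
      ≤ ∏ _k ∈ Finset.range n, Real.exp |γ| :=
        Finset.prod_le_prod (fun k _ => (GG_pos P ξ φ γ k _ z).le)
          (fun k _ => GG_le P ξ φ hφ γ k _ z)
    _ = Real.exp |γ| ^ n := by simp

lemma meas_vec {Ω : Type*} (ξ : ℕ → Ω → ℂ) (m : MeasurableSpace Ω) (n : ℕ)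
    (hξ : ∀ k < n, Measurable[m] (ξ k)) : Measurable[m] (fun ω (k : Fin n) => ξ k ω) :=
  measurable_pi_lambda _ fun k => hξ k k.2

/-- the same product as a function of the coefficient vector -/
noncomputable def QQ (n : ℕ) (c : Fin n → ℂ) (z : K) : ℝ :=
  ∏ k : Fin n, GG P ξ φ γ k (c k) z

lemma NN_eq_QQ (n : ℕ) (ω : Ω) (z : K) :
    NN P ξ φ γ n ω z = QQ P ξ φ γ n (fun k => ξ k ω) z := by
  unfold NN QQ
  rw [Finset.prod_range]

include hm hL hφ in
lemma measurable_GG_comp {α : Type*} {mα : MeasurableSpace α} (k : ℕ) (g : α → ℂ) (hg : Measurable g)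
    (h : α → K) (hh : Measurable h) : Measurable (fun a => GG P ξ φ γ k (g a) (h a)) := by
  have h2 := measurable_GG P ξ hm hL φ hφ γ k
  have h3 := h2.comp (hg.prodMk hh)
  exact h3

include hm hL hφ in
lemma measurable_QQ (n : ℕ) :
    Measurable (fun p : (Fin n → ℂ) × K => QQ P ξ φ γ n p.1 p.2) := by
  unfold QQ
  apply Finset.measurable_prod
  intro k _
  exact measurable_GG_comp P ξ hm hL φ hφ γ k (fun p : (Fin n → ℂ) × K => p.1 k)
    ((measurable_pi_apply k).comp measurable_fst) (fun p : (Fin n → ℂ) × K => p.2) measurable_snd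

include hm hL hφ in
lemma measurable_QQ_comp {α : Type*} {mα : MeasurableSpace α} (n : ℕ) (g : α → (Fin n → ℂ))
    (hg : Measurable g) (h : α → K) (hh : Measurable h) :
    Measurable (fun a => QQ P ξ φ γ n (g a) (h a)) := by
  have h2 := measurable_QQ P ξ hm hL φ hφ γ n
  have h3 := h2.comp (hg.prodMk hh)
  exact h3

include hm hL hφ in
lemma measurable_NN (n : ℕ) : Measurable (fun p : Ω × K => NN P ξ φ γ n p.1 p.2) := by
  simp only [NN_eq_QQ]
  exact measurable_QQ_comp P ξ hm hL φ hφ γ n (fun p : Ω × K => fun k : Fin n => ξ k p.1)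
    (measurable_pi_lambda _ fun k => (hm k).comp measurable_fst) (fun p : Ω × K => p.2)
    measurable_snd

include hm hL hφ in
lemma measurable_NN_comp {α : Type*} {mα : MeasurableSpace α} (n : ℕ) (g : α → Ω)
    (hg : Measurable g) (h : α → K) (hh : Measurable h) :
    Measurable (fun a => NN P ξ φ γ n (g a) (h a)) := by
  have h2 := measurable_NN P ξ hm hL φ hφ γ n
  have h3 := h2.comp (hg.prodMk hh)
  exact h3

variable (lam : Measure K) [IsFiniteMeasure lam]

/-- integral of a continuous test function against the corrected density -/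
noncomputable def SS (f : C(K, ℝ)) (n : ℕ) (ω : Ω) : ℝ :=
  ∫ z, f z * NN P ξ φ γ n ω z ∂lam

include hm hL hφ in
/-- Adaptedness. -/
lemma stronglyMeasurable_SS (f : C(K, ℝ)) (n : ℕ) (m : MeasurableSpace Ω)
    (hξ : ∀ k < n, Measurable[m] (ξ k)) :
    StronglyMeasurable[m] (SS P ξ φ γ lam f n) := by
  have h1 : StronglyMeasurable (fun c : Fin n → ℂ => ∫ z, f z * QQ P ξ φ γ n c z ∂lam) := by
    apply StronglyMeasurable.integral_prod_right
    apply Measurable.stronglyMeasurable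
    exact (f.continuous.measurable.comp measurable_snd).mul (measurable_QQ P ξ hm hL φ hφ γ n)
  have h2 : SS P ξ φ γ lam f n =
      (fun c : Fin n → ℂ => ∫ z, f z * QQ P ξ φ γ n c z ∂lam) ∘ (fun ω (k : Fin n) => ξ k ω) := by
    funext ω
    simp only [SS, Function.comp, NN_eq_QQ]
  rw [h2]
  apply h1.comp_measurable
  exact measurable_pi_lambda _ fun k => hξ k k.2

include hφ in
lemma abs_SS_integrand_le (f : C(K, ℝ)) (n : ℕ) (ω : Ω) (z : K) :
    |f z * NN P ξ φ γ n ω z| ≤ ‖f‖ * Real.exp |γ| ^ n := by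
  rw [abs_mul, abs_of_pos (NN_pos P ξ φ γ n ω z)]
  gcongr
  · exact (NN_pos P ξ φ γ n ω z).le
  · exact f.norm_coe_le_norm z
  · exact NN_le P ξ φ hφ γ n ω z

include hm hL hφ in
lemma integrable_prod (f : C(K, ℝ)) (n : ℕ) (Q : Measure Ω) [IsFiniteMeasure Q] :
    Integrable (fun p : Ω × K => f p.2 * NN P ξ φ γ n p.1 p.2) (Q.prod lam) := by
  refine Integrable.of_bound ?_ (‖f‖ * Real.exp |γ| ^ n) (ae_of_all _ fun p => ?_)
  · exact ((f.continuous.measurable.comp measurable_snd).mul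
      (measurable_NN P ξ hm hL φ hφ γ n)).aestronglyMeasurable
  · rw [Real.norm_eq_abs]
    exact abs_SS_integrand_le P ξ φ hφ γ f n p.1 p.2

include hm hL hφ in
lemma integrable_SS (f : C(K, ℝ)) (n : ℕ) : Integrable (SS P ξ φ γ lam f n) P :=
  (integrable_prod P ξ hm hL φ hφ γ lam f n P).integral_prod_left

include hm hL hmean hφ in
lemma setIntegral_SS_succ_le (hind : iIndepFun ξ P) (f : C(K, ℝ)) (hf : ∀ z, 0 ≤ f z) (n : ℕ)
    (s : Set Ω) (hs : MeasurableSet[Filtration.natural ξ (fun k => (hm k).stronglyMeasurable) n] s) :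
    ∫ ω in s, SS P ξ φ γ lam f (n + 2) ω ∂P ≤ ∫ ω in s, SS P ξ φ γ lam f (n + 1) ω ∂P := by
  have hs' : MeasurableSet s := (Filtration.natural ξ (fun k => (hm k).stronglyMeasurable)).le n s hs
  have hI1 := integrable_prod P ξ hm hL φ hφ γ lam f (n + 1) (P.restrict s)
  have hI2 := integrable_prod P ξ hm hL φ hφ γ lam f (n + 2) (P.restrict s)
  unfold SS
  rw [integral_integral_swap (f := fun ω z => f z * NN P ξ φ γ (n + 1) ω z) hI1,
    integral_integral_swap (f := fun ω z => f z * NN P ξ φ γ (n + 2) ω z) hI2]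
  apply integral_mono hI2.integral_prod_right hI1.integral_prod_right
  intro z
  simp only
  rw [integral_const_mul, integral_const_mul]
  apply mul_le_mul_of_nonneg_left _ (hf z)
  -- split off the last factor
  set U : Ω → ℝ := s.indicator (fun ω => NN P ξ φ γ (n + 1) ω z) with hU
  set V : Ω → ℝ := fun ω => GG P ξ φ γ (n + 1) (ξ (n + 1) ω) z with hV
  have hVmeas : Measurable[MeasurableSpace.comap (ξ (n + 1)) inferInstance] V := by
    have : Measurable (fun c : ℂ => GG P ξ φ γ (n + 1) c z) :=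
      measurable_GG_comp P ξ hm hL φ hφ γ (n + 1) (fun c : ℂ => c) measurable_id
        (fun _ => z) measurable_const
    exact this.comp (comap_measurable _)
  have hUmeas : Measurable[Filtration.natural ξ (fun k => (hm k).stronglyMeasurable) n] U := by
    apply Measurable.indicator _ hs
    have h1 : Measurable (fun c : Fin (n + 1) → ℂ => QQ P ξ φ γ (n + 1) c z) :=
      measurable_QQ_comp P ξ hm hL φ hφ γ (n + 1) (fun c => c) measurable_id
        (fun _ => z) measurable_const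
    have h1' : (fun ω => NN P ξ φ γ (n + 1) ω z) =
        (fun c : Fin (n + 1) → ℂ => QQ P ξ φ γ (n + 1) c z) ∘ (fun ω (k : Fin (n + 1)) => ξ k ω) := by
      funext ω
      rw [Function.comp, NN_eq_QQ]
    rw [h1']
    refine h1.comp (meas_vec ξ _ (n + 1) ?_)
    intro k hk'
    have hk : (k : ℕ) ≤ n := Nat.lt_succ_iff.mp hk'
    have h2 := (Filtration.stronglyAdapted_natural (fun k => (hm k).stronglyMeasurable)) k
    exact (h2.mono ((Filtration.natural ξ (fun k => (hm k).stronglyMeasurable)).mono hk)).measurable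
  have hindep : IndepFun V U P := by
    have h1 := hind.indep_comap_natural_of_lt (fun k => (hm k).stronglyMeasurable)
      (Nat.lt_succ_self n)
    rw [IndepFun_iff_Indep]
    exact indep_of_indep_of_le_left (indep_of_indep_of_le_right h1 hUmeas.comap_le) hVmeas.comap_le
  have hUint : Integrable U P := by
    apply Integrable.indicator _ hs'
    refine Integrable.of_bound ?_ (Real.exp |γ| ^ (n + 1)) (ae_of_all _ fun ω => ?_)
    · exact (measurable_NN_comp P ξ hm hL φ hφ γ (n + 1) (fun ω => ω) measurable_id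
        (fun _ => z) measurable_const).aestronglyMeasurable
    · rw [Real.norm_eq_abs, abs_of_pos (NN_pos P ξ φ γ (n + 1) ω z)]
      exact NN_le P ξ φ hφ γ (n + 1) ω z
  have hVm : Measurable V := measurable_GG_comp P ξ hm hL φ hφ γ (n + 1) (ξ (n + 1)) (hm (n + 1))
        (fun _ => z) measurable_const
  have hprod : ∫ ω, (V * U) ω ∂P = (∫ ω, V ω ∂P) * ∫ ω, U ω ∂P :=
    hindep.integral_mul_eq_mul_integral hVm.aestronglyMeasurable hUint.aestronglyMeasurable
  have hleft : ∫ ω in s, NN P ξ φ γ (n + 2) ω z ∂P = ∫ ω, (V * U) ω ∂P := by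
    rw [← integral_indicator hs']
    congr 1
    funext ω
    simp only [hU, hV, Pi.mul_apply, Set.indicator]
    split_ifs
    · unfold NN
      rw [Finset.prod_range_succ, mul_comm]
    · simp
  have hright : ∫ ω in s, NN P ξ φ γ (n + 1) ω z ∂P = ∫ ω, U ω ∂P := by
    rw [← integral_indicator hs']
  rw [hleft, hright, hprod]
  have hU0 : 0 ≤ ∫ ω, U ω ∂P := integral_nonneg fun ω =>
    Set.indicator_nonneg (fun ω _ => (NN_pos P ξ φ γ (n + 1) ω z).le) ω
  have hV1 : ∫ ω, V ω ∂P ≤ 1 := integral_GG_le_one P ξ hm hL hmean φ hφ γ (n + 1) z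
  calc (∫ ω, V ω ∂P) * ∫ ω, U ω ∂P ≤ 1 * ∫ ω, U ω ∂P := by gcongr
    _ = _ := one_mul _

include hm hL hmean hφ in
lemma ae_tendsto_SS_of_nonneg (hind : iIndepFun ξ P) (f : C(K, ℝ)) (hf : ∀ z, 0 ≤ f z) :
    ∀ᵐ ω ∂P, ∃ c, Tendsto (fun n => SS P ξ φ γ lam f n ω) atTop (𝓝 c) := by
  set ℱ := Filtration.natural ξ (fun k => (hm k).stronglyMeasurable) with hℱ
  have hsuper : Supermartingale (fun n => SS P ξ φ γ lam f (n + 1)) ℱ P := by
    apply supermartingale_of_setIntegral_succ_le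
    · intro n
      apply stronglyMeasurable_SS P ξ hm hL φ hφ γ lam f (n + 1)
      intro k hk
      have hk : k ≤ n := Nat.lt_succ_iff.mp hk
      have h2 := (Filtration.stronglyAdapted_natural (fun k => (hm k).stronglyMeasurable)) k
      exact (h2.mono (ℱ.mono hk)).measurable
    · intro n
      exact integrable_SS P ξ hm hL φ hφ γ lam f (n + 1)
    · intro n s hs
      exact setIntegral_SS_succ_le P ξ hm hL hmean φ hφ γ lam hind f hf n s hs
  have hSnn : ∀ n ω, 0 ≤ SS P ξ φ γ lam f n ω := fun n ω =>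
    integral_nonneg fun z => mul_nonneg (hf z) (NN_pos P ξ φ γ n ω z).le
  have hanti : ∀ n, ∫ ω, SS P ξ φ γ lam f (n + 1) ω ∂P ≤ ∫ ω, SS P ξ φ γ lam f 1 ω ∂P := by
    intro n
    induction n with
    | zero => simp
    | succ n ih =>
      have := setIntegral_SS_succ_le P ξ hm hL hmean φ hφ γ lam hind f hf n univ MeasurableSet.univ
      simp only [setIntegral_univ] at this
      exact this.trans ih
  have hR0 : 0 ≤ ∫ ω, SS P ξ φ γ lam f 1 ω ∂P := integral_nonneg fun ω => hSnn 1 ω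
  have hbdd : ∀ n, eLpNorm ((-(fun n => SS P ξ φ γ lam f (n + 1))) n) 1 P
      ≤ ((Real.toNNReal (∫ ω, SS P ξ φ γ lam f 1 ω ∂P) : ℝ≥0) : ℝ≥0∞) := by
    intro n
    simp only [Pi.neg_apply]
    rw [eLpNorm_neg, eLpNorm_one_eq_lintegral_enorm,
      ← ofReal_integral_norm_eq_lintegral_enorm (integrable_SS P ξ hm hL φ hφ γ lam f (n + 1))]
    apply ENNReal.ofReal_le_ofReal
    calc ∫ ω, ‖SS P ξ φ γ lam f (n + 1) ω‖ ∂P = ∫ ω, SS P ξ φ γ lam f (n + 1) ω ∂P := by
          congr 1; funext ω; rw [Real.norm_eq_abs, abs_of_nonneg (hSnn _ _)]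
      _ ≤ _ := hanti n
  have := hsuper.neg.exists_ae_tendsto_of_bdd hbdd
  filter_upwards [this] with ω hω
  obtain ⟨c, hc⟩ := hω
  refine ⟨-c, ?_⟩
  rw [← tendsto_add_atTop_iff_nat 1]
  have := hc.neg
  simpa using this

include hm hL hmean hφ in
lemma ae_tendsto_SS (hind : iIndepFun ξ P) (f : C(K, ℝ)) :
    ∀ᵐ ω ∂P, ∃ c, Tendsto (fun n => SS P ξ φ γ lam f n ω) atTop (𝓝 c) := by
  have h1 := ae_tendsto_SS_of_nonneg P ξ hm hL hmean φ hφ γ lam hind (f ⊔ 0)
    (fun z => by simp)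
  have h2 := ae_tendsto_SS_of_nonneg P ξ hm hL hmean φ hφ γ lam hind ((-f) ⊔ 0)
    (fun z => by simp)
  filter_upwards [h1, h2] with ω hω1 hω2
  obtain ⟨c1, hc1⟩ := hω1
  obtain ⟨c2, hc2⟩ := hω2
  refine ⟨c1 - c2, ?_⟩
  have h3 : ∀ n, SS P ξ φ γ lam f n ω =
      SS P ξ φ γ lam (f ⊔ 0) n ω - SS P ξ φ γ lam ((-f) ⊔ 0) n ω := by
    intro n
    unfold SS
    have hi : ∀ g : C(K, ℝ), Integrable (fun z => g z * NN P ξ φ γ n ω z) lam := by
      intro g
      refine Integrable.of_bound ?_ (‖g‖ * Real.exp |γ| ^ n) (ae_of_all _ fun z => ?_)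
      · exact (g.continuous.measurable.mul (measurable_NN_comp P ξ hm hL φ hφ γ n (fun _ => ω)
          measurable_const (fun z => z) measurable_id)).aestronglyMeasurable
      · rw [Real.norm_eq_abs]
        exact abs_SS_integrand_le P ξ φ hφ γ g n ω z
    rw [← integral_sub (hi _) (hi _)]
    congr 1
    funext z
    rw [← sub_mul]
    congr 1
    simp only [ContinuousMap.sup_apply, ContinuousMap.neg_apply, ContinuousMap.zero_apply]
    rcases le_total 0 (f z) with h | h
    · rw [sup_eq_left.mpr h, sup_eq_right.mpr (by linarith)]; ring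
    · rw [sup_eq_right.mpr h, sup_eq_left.mpr (by linarith)]; ring
  simp only [h3]
  exact hc1.sub hc2

include hm hL hmean hφ in
lemma integral_xx (k : ℕ) (z : K) : ∫ ω, xx φ k (ξ k ω) z ∂P = 0 := by
  have hξint : Integrable (ξ k) P := (hL k).integrable (by norm_num)
  unfold xx
  rw [integral_div]
  have h1 : ∫ ω, (ξ k ω * φ k z).re ∂P = (∫ ω, ξ k ω * φ k z ∂P).re := by
    have := integral_re (hξint.mul_const (φ k z))
    simpa using this
  rw [h1, integral_mul_const, hmean k]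
  simp



include hm hL in
lemma summable_dl (hid : ∀ k, IdentDistrib (ξ k) (ξ 0) P P) : Summable (dl P ξ γ) := by
  have hsq : Integrable (fun ω => ‖ξ 0 ω‖ ^ 2) P := (hL 0).integrable_norm_pow (by norm_num)
  have hlow : Summable (fun k => ∫ ω, low k ‖ξ k ω‖ ∂P) := by
    apply summable_of_sum_range_le (c := ∫ ω, 2 * ‖ξ 0 ω‖ ^ 2 ∂P)
    · intro k
      exact integral_nonneg fun ω => low_nonneg k (norm_nonneg _)
    · intro n
      have h1 : ∀ k, ∫ ω, low k ‖ξ k ω‖ ∂P = ∫ ω, low k ‖ξ 0 ω‖ ∂P := by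
        intro k
        exact ((hid k).comp (u := fun c : ℂ => low k ‖c‖)
          ((measurable_low k).comp measurable_norm)).integral_eq
      simp only [h1]
      rw [← integral_finsetSum _ (fun k _ => integrable_low P ξ hm hL k 0)]
      apply integral_mono (integrable_finsetSum _ (fun k _ => integrable_low P ξ hm hL k 0))
        (hsq.const_mul 2)
      intro ω
      have h2 := sum_low ‖ξ 0 ω‖ (norm_nonneg _) n
      simp only [low]
      refine h2.trans ?_
      have h3 : min (√(n : ℝ)) ‖ξ 0 ω‖ ≤ ‖ξ 0 ω‖ := min_le_right _ _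
      calc 2 * ‖ξ 0 ω‖ * min (√(n : ℝ)) ‖ξ 0 ω‖ ≤ 2 * ‖ξ 0 ω‖ * ‖ξ 0 ω‖ := by gcongr
        _ = 2 * ‖ξ 0 ω‖ ^ 2 := by ring
  have hhigh : Summable (fun k => ∫ ω, high k ‖ξ k ω‖ ∂P) := by
    apply summable_of_sum_range_le (c := ∫ ω, 3 * ‖ξ 0 ω‖ ^ 2 ∂P)
    · intro k
      exact integral_nonneg fun ω => high_nonneg k (norm_nonneg _)
    · intro n
      have h1 : ∀ k, ∫ ω, high k ‖ξ k ω‖ ∂P = ∫ ω, high k ‖ξ 0 ω‖ ∂P := by
        intro k
        exact ((hid k).comp (u := fun c : ℂ => high k ‖c‖)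
          ((measurable_high k).comp measurable_norm)).integral_eq
      simp only [h1]
      rw [← integral_finsetSum _ (fun k _ => integrable_high P ξ hm k 0)]
      apply integral_mono (integrable_finsetSum _ (fun k _ => integrable_high P ξ hm k 0))
        (hsq.const_mul 3)
      intro ω
      exact sum_high ‖ξ 0 ω‖ (norm_nonneg _) n
  exact (hlow.mul_left |γ|).add (hhigh.mul_left (|γ| ^ 3 * Real.exp |γ|))

include hm hL in
/-- Borel-Cantelli: almost surely the truncation is eventually inactive. -/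
lemma ae_eventually_small (hid : ∀ k, IdentDistrib (ξ k) (ξ 0) P P) :
    ∀ᵐ ω ∂P, ∀ᶠ k : ℕ in atTop, ‖ξ k ω‖ ^ 2 ≤ (k : ℝ) + 1 := by
  have hsq : Integrable (fun ω => ‖ξ 0 ω‖ ^ 2) P := (hL 0).integrable_norm_pow (by norm_num)
  have hsum : ∑' k : ℕ, P {ω | ‖ξ 0 ω‖ ^ 2 ∈ Set.Ioi (k : ℝ)} < ∞ := by
    let _ : MeasureSpace Ω := ⟨P⟩
    have : IsProbabilityMeasure (volume : Measure Ω) := (inferInstance : IsProbabilityMeasure P)
    exact tsum_prob_mem_Ioi_lt_top (X := fun ω => ‖ξ 0 ω‖ ^ 2) hsq (fun ω => by positivity)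
  have hmeas : ∀ k : ℕ, P {ω | ‖ξ k ω‖ ^ 2 ∈ Set.Ioi (k : ℝ)}
      = P {ω | ‖ξ 0 ω‖ ^ 2 ∈ Set.Ioi (k : ℝ)} := by
    intro k
    have h1 : MeasurableSet {c : ℂ | ‖c‖ ^ 2 ∈ Set.Ioi (k : ℝ)} := by
      have : Measurable (fun c : ℂ => ‖c‖ ^ 2) := measurable_norm.pow_const 2
      exact this measurableSet_Ioi
    exact (hid k).measure_mem_eq h1
  have hne : ∑' k : ℕ, P {ω | ‖ξ k ω‖ ^ 2 ∈ Set.Ioi (k : ℝ)} ≠ ∞ := by
    simp only [hmeas]; exact hsum.ne
  filter_upwards [ae_eventually_notMem hne] with ω hω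
  filter_upwards [hω] with k hk
  simp only [Set.mem_Ioi, not_lt] at hk
  linarith

include hm hL hφ in
lemma integrable_f_NN (g : C(K, ℝ)) (n : ℕ) (ω : Ω) :
    Integrable (fun z => g z * NN P ξ φ γ n ω z) lam := by
  refine Integrable.of_bound ?_ (‖g‖ * Real.exp |γ| ^ n) (ae_of_all _ fun z => ?_)
  · exact (g.continuous.measurable.mul (measurable_NN_comp P ξ hm hL φ hφ γ n (fun _ => ω)
      measurable_const (fun z => z) measurable_id)).aestronglyMeasurable
  · rw [Real.norm_eq_abs]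
    exact abs_SS_integrand_le P ξ φ hφ γ g n ω z

include hm hL hmean hφ in
lemma ae_tendsto_SS_all (hind : iIndepFun ξ P) :
    ∀ᵐ ω ∂P, ∀ f : C(K, ℝ), ∃ c, Tendsto (fun n => SS P ξ φ γ lam f n ω) atTop (𝓝 c) := by
  obtain ⟨D, hDc, hDd⟩ := TopologicalSpace.exists_countable_dense C(K, ℝ)
  have h1 : ∀ᵐ ω ∂P, ∀ f ∈ D, ∃ c, Tendsto (fun n => SS P ξ φ γ lam f n ω) atTop (𝓝 c) := by
    rw [ae_ball_iff hDc]
    intro f _
    exact ae_tendsto_SS P ξ hm hL hmean φ hφ γ lam hind f
  have h2 := ae_tendsto_SS P ξ hm hL hmean φ hφ γ lam hind 1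
  filter_upwards [h1, h2] with ω hω1 hω2
  intro f
  obtain ⟨c1, hc1⟩ := hω2
  obtain ⟨M, hM⟩ := hc1.bddAbove_range
  have hM' : ∀ n, SS P ξ φ γ lam 1 n ω ≤ M := fun n => hM (mem_range_self n)
  have hS1nn : ∀ n, 0 ≤ SS P ξ φ γ lam 1 n ω := fun n =>
    integral_nonneg fun z => mul_nonneg (by simp) (NN_pos P ξ φ γ n ω z).le
  have hMnn : 0 ≤ M := (hS1nn 0).trans (hM' 0)
  have hdiff : ∀ g : C(K, ℝ), ∀ n, |SS P ξ φ γ lam f n ω - SS P ξ φ γ lam g n ω| ≤ dist f g * M := by
    intro g n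
    unfold SS
    rw [← integral_sub (integrable_f_NN P ξ hm hL φ hφ γ lam f n ω)
      (integrable_f_NN P ξ hm hL φ hφ γ lam g n ω)]
    refine (abs_integral_le_integral_abs).trans ?_
    have h3 : ∫ z, |f z * NN P ξ φ γ n ω z - g z * NN P ξ φ γ n ω z| ∂lam
        ≤ ∫ z, dist f g * ((1 : C(K, ℝ)) z * NN P ξ φ γ n ω z) ∂lam := by
      apply integral_mono
      · exact ((integrable_f_NN P ξ hm hL φ hφ γ lam f n ω).sub
          (integrable_f_NN P ξ hm hL φ hφ γ lam g n ω)).abs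
      · exact (integrable_f_NN P ξ hm hL φ hφ γ lam 1 n ω).const_mul _
      · intro z
        simp only [ContinuousMap.one_apply, one_mul]
        rw [← sub_mul, abs_mul, abs_of_pos (NN_pos P ξ φ γ n ω z)]
        have := ContinuousMap.dist_apply_le_dist (f := f) (g := g) z
        rw [Real.dist_eq] at this
        exact mul_le_mul_of_nonneg_right this (NN_pos P ξ φ γ n ω z).le
    refine h3.trans ?_
    rw [integral_const_mul]
    exact mul_le_mul_of_nonneg_left (hM' n) dist_nonneg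
  have hcau : CauchySeq (fun n => SS P ξ φ γ lam f n ω) := by
    rw [Metric.cauchySeq_iff']
    intro ε hε
    obtain ⟨g, hgD, hg⟩ := hDd.exists_dist_lt f (show 0 < ε / (4 * (M + 1)) by positivity)
    obtain ⟨c, hc⟩ := hω1 g hgD
    obtain ⟨N, hN⟩ := (Metric.cauchySeq_iff'.mp hc.cauchySeq) (ε / 4) (by positivity)
    refine ⟨N, fun n hn => ?_⟩
    have e0 : dist f g * M ≤ ε / 4 := by
      calc dist f g * M ≤ ε / (4 * (M + 1)) * (M + 1) := by
            gcongr; linarith
        _ = ε / 4 := by field_simp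
    have e1 := (hdiff g n).trans e0
    have e2 := (hdiff g N).trans e0
    have e3 := hN n hn
    rw [Real.dist_eq] at e3 ⊢
    rw [abs_le] at e1 e2
    rw [abs_lt] at e3 ⊢
    constructor <;> linarith [e1.1, e1.2, e2.1, e2.2, e3.1, e3.2]
  exact cauchySeq_tendsto_of_complete hcau

/-- real part of the random series -/
noncomputable def PP (n : ℕ) (ω : Ω) (z : K) : ℝ := ∑ k ∈ Finset.range n, xx φ k (ξ k ω) z

/-- the chaos density -/
noncomputable def dens (n : ℕ) (ω : Ω) (z : K) : ℝ :=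
  Real.exp (γ * PP ξ φ n ω z - γ ^ 2 / 2 * Var[fun ω' => PP ξ φ n ω' z; P])

include hm hL hmean hφ in
lemma variance_PP (hind : iIndepFun ξ P) (n : ℕ) (z : K) :
    Var[fun ω' => PP ξ φ n ω' z; P] = ∑ k ∈ Finset.range n, vv P ξ φ k z := by
  have h1 : (fun ω' => PP ξ φ n ω' z) = ∑ k ∈ Finset.range n, (fun ω' => xx φ k (ξ k ω') z) := by
    funext ω'
    simp [PP]
  rw [h1, IndepFun.variance_sum]
  · apply Finset.sum_congr rfl
    intro k _
    rw [variance_of_integral_eq_zero (measurable_xx_xi ξ hm φ k z).aemeasurable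
      (integral_xx P ξ hm hL hmean φ hφ k z)]
    rfl
  · intro k _
    exact memLp_xx P ξ hm hL φ hφ k z
  · intro i _ j _ hij
    have hx : ∀ k, Measurable (fun c : ℂ => xx φ k c z) := fun k =>
      (measurable_xx φ k).comp (measurable_id.prodMk measurable_const)
    exact (hind.indepFun hij).comp (hx i) (hx j)

include hm hL hmean hφ in
lemma dens_eq (hind : iIndepFun ξ P) (n : ℕ) (ω : Ω) (z : K) :
    dens P ξ φ γ n ω z =
      Real.exp (γ * PP ξ φ n ω z - γ ^ 2 / 2 * ∑ k ∈ Finset.range n, vv P ξ φ k z) := by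
  unfold dens
  rw [variance_PP P ξ hm hL hmean φ hφ hind]

include hm hL hmean hφ in
lemma continuous_dens (hind : iIndepFun ξ P) (n : ℕ) (ω : Ω) :
    Continuous (dens P ξ φ γ n ω) := by
  have : dens P ξ φ γ n ω = fun z =>
      Real.exp (γ * PP ξ φ n ω z - γ ^ 2 / 2 * ∑ k ∈ Finset.range n, vv P ξ φ k z) := by
    funext z; exact dens_eq P ξ hm hL hmean φ hφ γ hind n ω z
  rw [this]
  have h1 : Continuous (PP ξ φ n ω) := by
    unfold PP
    exact continuous_finsetSum _ fun k _ => continuous_xx φ k _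
  have h2 : Continuous (fun z => ∑ k ∈ Finset.range n, vv P ξ φ k z) :=
    continuous_finsetSum _ fun k _ => continuous_vv P ξ hm hL φ hφ k
  exact Real.continuous_exp.comp ((continuous_const.mul h1).sub (continuous_const.mul h2))

include hm hL hmean hφ in
lemma measurable_dens (hind : iIndepFun ξ P) (n : ℕ) :
    Measurable (fun p : Ω × K => dens P ξ φ γ n p.1 p.2) := by
  simp only [dens_eq P ξ hm hL hmean φ hφ γ hind]
  have h1 : Measurable (fun p : Ω × K => PP ξ φ n p.1 p.2) := by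
    unfold PP
    apply Finset.measurable_sum
    intro k _
    have h3 : Measurable (fun p : Ω × K => ((ξ k p.1, p.2) : ℂ × K)) :=
      ((hm k).comp measurable_fst).prodMk measurable_snd
    have h4 := (measurable_xx φ k).comp h3
    exact h4
  have h2 : Measurable (fun p : Ω × K => ∑ k ∈ Finset.range n, vv P ξ φ k p.2) := by
    apply Finset.measurable_sum
    intro k _
    exact (continuous_vv P ξ hm hL φ hφ k).measurable.comp measurable_snd
  exact ((h1.const_mul γ).sub (h2.const_mul _)).exp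

include hm hL hmean hφ in
lemma dens_eq_NN (hind : iIndepFun ξ P) (ω : Ω) (n0 : ℕ)
    (hn0 : ∀ k : ℕ, n0 ≤ k → ‖ξ k ω‖ ^ 2 ≤ (k : ℝ) + 1) (n : ℕ) (hn : n0 ≤ n) (z : K) :
    dens P ξ φ γ n ω z = Real.exp (∑ k ∈ Finset.range n, dl P ξ γ k) *
      (Real.exp (γ * ∑ k ∈ Finset.range n0, (xx φ k (ξ k ω) z - xx φ k (tr k (ξ k ω)) z)) *
        NN P ξ φ γ n ω z) := by
  rw [dens_eq P ξ hm hL hmean φ hφ γ hind]
  unfold NN GG
  rw [← Real.exp_sum, ← Real.exp_add, ← Real.exp_add]
  congr 1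
  have h1 : ∑ k ∈ Finset.range n0, (xx φ k (ξ k ω) z - xx φ k (tr k (ξ k ω)) z)
      = ∑ k ∈ Finset.range n, (xx φ k (ξ k ω) z - xx φ k (tr k (ξ k ω)) z) := by
    apply Finset.sum_subset (Finset.range_mono hn)
    intro k _ hk
    have : n0 ≤ k := by simpa using hk
    rw [tr, if_pos (hn0 k this), sub_self]
  rw [h1]
  unfold PP
  rw [Finset.sum_sub_distrib, Finset.sum_sub_distrib, Finset.sum_sub_distrib, ← Finset.mul_sum,
    ← Finset.mul_sum]
  ring

lemma dens_pos (n : ℕ) (ω : Ω) (z : K) : 0 < dens P ξ φ γ n ω z := Real.exp_pos _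

include hm hL hmean hφ in
lemma integrable_dens (hind : iIndepFun ξ P) (n : ℕ) (ω : Ω) :
    Integrable (dens P ξ φ γ n ω) lam :=
  (BoundedContinuousFunction.mkOfCompact
    ⟨dens P ξ φ γ n ω, continuous_dens P ξ hm hL hmean φ hφ γ hind n ω⟩).integrable _

include hm hL hmean hφ in
lemma ae_good (hind : iIndepFun ξ P) (hid : ∀ k, IdentDistrib (ξ k) (ξ 0) P P) :
    ∀ᵐ ω ∂P, ∀ f : C(K, ℝ),
      ∃ c, Tendsto (fun n => ∫ z, f z * dens P ξ φ γ n ω z ∂lam) atTop (𝓝 c) := by
  filter_upwards [ae_eventually_small P ξ hm hL hid,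
    ae_tendsto_SS_all P ξ hm hL hmean φ hφ γ lam hind] with ω h1 h2
  intro f
  obtain ⟨n0, hn0⟩ := eventually_atTop.mp h1
  -- the continuous correction factor
  let D : C(K, ℝ) := ⟨fun z => Real.exp (γ * ∑ k ∈ Finset.range n0,
    (xx φ k (ξ k ω) z - xx φ k (tr k (ξ k ω)) z)), by
      have h : Continuous (fun z => ∑ k ∈ Finset.range n0,
          (xx φ k (ξ k ω) z - xx φ k (tr k (ξ k ω)) z)) :=
        continuous_finsetSum _ fun k _ => (continuous_xx φ k _).sub (continuous_xx φ k _)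
      exact Real.continuous_exp.comp (continuous_const.mul h)⟩
  obtain ⟨c, hc⟩ := h2 (f * D)
  have hsum := (summable_dl P ξ hm hL γ hid).hasSum.tendsto_sum_nat
  refine ⟨Real.exp (∑' k, dl P ξ γ k) * c, ?_⟩
  have h3 : Tendsto (fun n => Real.exp (∑ k ∈ Finset.range n, dl P ξ γ k) *
      SS P ξ φ γ lam (f * D) n ω) atTop (𝓝 (Real.exp (∑' k, dl P ξ γ k) * c)) :=
    ((Real.continuous_exp.tendsto _).comp hsum).mul hc
  refine h3.congr' ?_
  filter_upwards [eventually_ge_atTop n0] with n hn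
  unfold SS
  rw [← integral_const_mul]
  congr 1
  funext z
  rw [dens_eq_NN P ξ hm hL hmean φ hφ γ hind ω n0 hn0 n hn z]
  simp only [ContinuousMap.mul_apply, D, ContinuousMap.coe_mk]
  ring

include hm hL hmean hφ in
theorem general (hind : iIndepFun ξ P) (hid : ∀ k, IdentDistrib (ξ k) (ξ 0) P P) :
    ∃ (μ : ℕ → Ω → FiniteMeasure K) (μlim : Ω → FiniteMeasure K),
      (∀ n ω, (μ n ω : Measure K) =
        lam.withDensity (fun z => ENNReal.ofReal (dens P ξ φ γ n ω z))) ∧
      (∀ n, @Measurable Ω (FiniteMeasure K) _ (borel (FiniteMeasure K)) (μ n)) ∧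
      (@Measurable Ω (FiniteMeasure K) _ (borel (FiniteMeasure K)) μlim) ∧
      (∀ᵐ ω ∂P, Tendsto (fun n => μ n ω) atTop (𝓝 (μlim ω))) ∧
      (∀ F : FiniteMeasure K →ᵇ ℝ,
        Tendsto (fun n => ∫ ω, F (μ n ω) ∂P) atTop (𝓝 (∫ ω, F (μlim ω) ∂P))) := by
  classical
  have hfin : ∀ n ω, IsFiniteMeasure
      (lam.withDensity (fun z => ENNReal.ofReal (dens P ξ φ γ n ω z))) := by
    intro n ω
    exact isFiniteMeasure_withDensity_ofReal
      (integrable_dens P ξ hm hL hmean φ hφ γ lam hind n ω).2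
  let μ : ℕ → Ω → FiniteMeasure K := fun n ω =>
    ⟨lam.withDensity (fun z => ENNReal.ofReal (dens P ξ φ γ n ω z)), hfin n ω⟩
  have hint : ∀ (f : C(K, ℝ)) n ω, ∫ z, f z ∂(μ n ω : Measure K)
      = ∫ z, f z * dens P ξ φ γ n ω z ∂lam := by
    intro f n ω
    simp only [μ, FiniteMeasure.toMeasure_mk]
    have hmz : Measurable (fun z => ENNReal.ofReal (dens P ξ φ γ n ω z)) :=
      (continuous_dens P ξ hm hL hmean φ hφ γ hind n ω).measurable.ennreal_ofReal
    rw [integral_withDensity_eq_integral_toReal_smul hmz (ae_of_all _ fun z => by simp)]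
    congr 1
    funext z
    rw [ENNReal.toReal_ofReal (dens_pos P ξ φ γ n ω z).le, smul_eq_mul, mul_comm]
  have hmeasf : ∀ (f : C(K, ℝ)) n, Measurable (fun ω => ∫ z, f z ∂(μ n ω : Measure K)) := by
    intro f n
    simp only [hint]
    apply StronglyMeasurable.measurable
    apply StronglyMeasurable.integral_prod_right
    apply Measurable.stronglyMeasurable
    exact (f.continuous.measurable.comp measurable_snd).mul
      (measurable_dens P ξ hm hL hmean φ hφ γ hind n)
  have hgood := ae_good P ξ hm hL hmean φ hφ γ lam hind hid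
  obtain ⟨B, hB1, hB2, hB3⟩ := exists_measurable_superset_of_null (ae_iff.mp hgood)
  have hG : ∀ ω, ω ∉ B → ∃ ν : FiniteMeasure K, Tendsto (fun n => μ n ω) atTop (𝓝 ν) := by
    intro ω hω
    apply exists_limit
    intro f
    have h1 : ∀ f : C(K, ℝ),
      ∃ c, Tendsto (fun n => ∫ z, f z * dens P ξ φ γ n ω z ∂lam) atTop (𝓝 c) := by
      by_contra hcon
      exact hω (hB1 hcon)
    obtain ⟨c, hc⟩ := h1 f
    refine ⟨c, ?_⟩
    simp only [hint]
    exact hc
  let μlim : Ω → FiniteMeasure K := fun ω => if h : ω ∉ B then (hG ω h).choose else 0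
  have hlim : ∀ ω, ω ∉ B → Tendsto (fun n => μ n ω) atTop (𝓝 (μlim ω)) := by
    intro ω hω
    simp only [μlim, dif_pos hω]
    exact (hG ω hω).choose_spec
  have hlimB : ∀ ω, ω ∈ B → μlim ω = 0 := by
    intro ω hω
    simp only [μlim]
    rw [dif_neg (by simpa using hω)]
  have hae : ∀ᵐ ω ∂P, Tendsto (fun n => μ n ω) atTop (𝓝 (μlim ω)) := by
    have : ∀ᵐ ω ∂P, ω ∉ B := by
      rw [ae_iff]; simpa using hB3
    filter_upwards [this] with ω hω
    exact hlim ω hω
  have hmμ : ∀ n, @Measurable Ω (FiniteMeasure K) _ (borel (FiniteMeasure K)) (μ n) := fun n =>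
    measurable_borel (μ n) (fun f => hmeasf f n)
  have hmlim : @Measurable Ω (FiniteMeasure K) _ (borel (FiniteMeasure K)) μlim := by
    apply measurable_borel
    intro f
    have h1 : ∀ n, Measurable (Bᶜ.indicator (fun ω => ∫ z, f z ∂(μ n ω : Measure K))) := fun n =>
      (hmeasf f n).indicator hB2.compl
    refine measurable_of_tendsto_metrizable h1 ?_
    rw [tendsto_pi_nhds]
    intro ω
    by_cases hω : ω ∈ B
    · have h2 : ∀ n, Bᶜ.indicator (fun ω => ∫ z, f z ∂(μ n ω : Measure K)) ω = 0 := fun n =>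
        Set.indicator_of_notMem (by simpa using hω) _
      simp only [h2, hlimB ω hω]
      simp
    · have h2 : ∀ n, Bᶜ.indicator (fun ω => ∫ z, f z ∂(μ n ω : Measure K)) ω
          = ∫ z, f z ∂(μ n ω : Measure K) := fun n =>
        Set.indicator_of_mem (by simpa using hω) _
      simp only [h2]
      exact (FiniteMeasure.tendsto_iff_forall_integral_tendsto.mp (hlim ω hω))
        (BoundedContinuousFunction.mkOfCompact f)
  refine ⟨μ, μlim, fun n ω => rfl, hmμ, hmlim, hae, ?_⟩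
  intro F
  apply tendsto_integral_of_dominated_convergence (fun _ => ‖F‖)
  · intro n
    let _ : MeasurableSpace (FiniteMeasure K) := borel (FiniteMeasure K)
    have : BorelSpace (FiniteMeasure K) := ⟨rfl⟩
    exact (F.continuous.measurable.comp (hmμ n)).aestronglyMeasurable
  · exact integrable_const _
  · intro n
    exact ae_of_all _ fun ω => F.norm_coe_le_norm _
  · filter_upwards [hae] with ω hω
    exact (F.continuous.tendsto _).comp hω

/-! ### The unit circle -/

/-- The unit circle `S¹ = {z ∈ ℂ : |z| = 1}` with its subspace topology and Borel sigma-algebra. -/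
abbrev S1 : Type := Metric.sphere (0 : ℂ) 1

/-- The point `e^{iθ}` of the unit circle. -/
noncomputable def expPoint (θ : ℝ) : S1 :=
  ⟨Complex.exp (θ * Complex.I), by simp [Complex.norm_exp_ofReal_mul_I]⟩

/-- Lebesgue (arc length) measure on the unit circle: image of Lebesgue measure on `(-π, π]`
under `θ ↦ e^{iθ}`. -/
noncomputable def arcLength : Measure S1 :=
  Measure.map expPoint (volume.restrict (Set.Ioc (-Real.pi) Real.pi))

/-- The random polynomial `P_n(z) = ∑_{1 ≤ k ≤ n} k^{-1/2} ξ_k z^k`; the coefficient called `ξ_k`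
in the problem is `ξ (k - 1)` here. -/
noncomputable def randomPoly {Ω : Type*} (ξ : ℕ → Ω → ℂ) (n : ℕ) (ω : Ω) (z : S1) : ℂ :=
  ∑ k ∈ Finset.range n, ((1 / √((k : ℝ) + 1) : ℝ) : ℂ) * ξ k ω * (z : ℂ) ^ (k + 1)

/-- The density `exp (γ Re P_n(z) - (γ²/2) Var (Re P_n(z)))`. -/
noncomputable def chaosDensity {Ω : Type*} {mΩ : MeasurableSpace Ω} (P : Measure Ω)
    (ξ : ℕ → Ω → ℂ) (γ : ℝ) (n : ℕ) (ω : Ω) (z : S1) : ℝ :=
  Real.exp (γ * (randomPoly ξ n ω z).re
    - γ ^ 2 / 2 * Var[fun ω' => (randomPoly ξ n ω' z).re; P])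

lemma continuous_expPoint : Continuous expPoint := by
  unfold expPoint
  apply Continuous.subtype_mk
  fun_prop

instance : IsFiniteMeasure arcLength := by
  unfold arcLength
  infer_instance

/-- Sanity check: the circle has total length `2π`. -/
lemma arcLength_univ : arcLength Set.univ = ENNReal.ofReal (2 * Real.pi) := by
  unfold arcLength
  rw [Measure.map_apply continuous_expPoint.measurable MeasurableSet.univ]
  simp only [Set.preimage_univ, Measure.restrict_apply MeasurableSet.univ, Set.univ_inter,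
    Real.volume_Ioc]
  congr 1
  ring

/-- the powers of the coordinate function -/
noncomputable def pw (k : ℕ) : C(S1, ℂ) := ⟨fun z => (z : ℂ) ^ (k + 1), by fun_prop⟩

lemma norm_pw_le (k : ℕ) (z : S1) : ‖pw k z‖ ≤ 1 := by
  have h : ‖(z : ℂ)‖ = 1 := by simpa using z.2
  simp [pw, h]

lemma PP_pw {Ω : Type*} (ξ : ℕ → Ω → ℂ) (n : ℕ) (ω : Ω) (z : S1) :
    PP ξ pw n ω z = (randomPoly ξ n ω z).re := by
  unfold PP randomPoly
  rw [Complex.re_sum]
  apply Finset.sum_congr rfl
  intro k _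
  unfold xx pw
  simp only [ContinuousMap.coe_mk]
  rw [mul_assoc, Complex.re_ofReal_mul]
  ring

/-- **Positive answer to Q1, for every real `γ`.**  For i.i.d. centered coefficients of variance
one, with no further assumption on their law, the random measures `μ_n` with density
`exp (γ Re P_n - (γ²/2) Var Re P_n)` converge almost surely, hence in law, for the weak (= vague)
topology of finite measures on the circle, to a limiting random measure. -/
theorem result {Ω : Type*} {mΩ : MeasurableSpace Ω} (P : Measure Ω) [IsProbabilityMeasure P]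
    (ξ : ℕ → Ω → ℂ) (hmeas : ∀ k, Measurable (ξ k)) (hindep : iIndepFun ξ P)
    (hident : ∀ k, IdentDistrib (ξ k) (ξ 0) P P)
    (hmean : ∫ ω, ξ 0 ω ∂P = 0) (hvar : ∫ ω, ‖ξ 0 ω‖ ^ 2 ∂P = 1) (γ : ℝ) :
    ∃ (μ : ℕ → Ω → FiniteMeasure S1) (μlim : Ω → FiniteMeasure S1),
      (∀ n ω, (μ n ω : Measure S1) =
        arcLength.withDensity (fun z => ENNReal.ofReal (chaosDensity P ξ γ n ω z))) ∧
      (∀ n, @Measurable Ω (FiniteMeasure S1) _ (borel (FiniteMeasure S1)) (μ n)) ∧
      (@Measurable Ω (FiniteMeasure S1) _ (borel (FiniteMeasure S1)) μlim) ∧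
      (∀ᵐ ω ∂P, Tendsto (fun n => μ n ω) atTop (𝓝 (μlim ω))) ∧
      (∀ F : FiniteMeasure S1 →ᵇ ℝ,
        Tendsto (fun n => ∫ ω, F (μ n ω) ∂P) atTop (𝓝 (∫ ω, F (μlim ω) ∂P))) := by
  have hsq : Integrable (fun ω => ‖ξ 0 ω‖ ^ 2) P := by
    by_contra hcon
    rw [integral_undef hcon] at hvar
    exact zero_ne_one hvar
  have hL0 : MemLp (ξ 0) 2 P := by
    rw [← integrable_norm_rpow_iff (hmeas 0).aestronglyMeasurable (by norm_num) (by norm_num)]
    simpa using hsq
  have hL : ∀ k, MemLp (ξ k) 2 P := fun k => (hident k).symm.memLp_snd hL0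
  have hm0 : ∀ k, ∫ ω, ξ k ω ∂P = 0 := fun k => by
    rw [(hident k).integral_eq]; exact hmean
  obtain ⟨μ, μlim, h1, h2, h3, h4, h5⟩ :=
    general P ξ hmeas hL hm0 pw norm_pw_le γ arcLength hindep hident
  refine ⟨μ, μlim, ?_, h2, h3, h4, h5⟩
  intro n ω
  rw [h1 n ω]
  congr 1
  funext z
  unfold dens chaosDensity
  simp only [PP_pw]

end Pool.Agent.Results.MP_ab74d4_pr.ChaosConvergence
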