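import Mathlib
import Pool.Agent.Helper711.ChaosDefs
import Pool.Agent.Helper711.ChaosExists

/-!
Disproof of Q2: for the chaos measures of random polynomials on the circle, the Hausdorff dimension
of the limit is not the Gaussian one for general centered coefficients of variance one.

If `E ξ² log⁺|ξ| = ∞`, the limit is the zero measure for every `γ ≠ 0`: truncating `ξ_k` at `√k`
loses `E[ξ²; ξ² > k] / k` of the k-th variance, these losses have a divergent sum, and the
normalisation by the full variance kills the total mass.  In the Gaussian case a second moment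
computation gives Hölder regularity of the limit, hence positive dimension, and the Kolmogorov
zero-one law gives non-degeneracy.
-/

open MeasureTheory ProbabilityTheory Filter Topology Set
open scoped ENNReal NNReal

namespace Pool.Agent.Results.MP_ab74d4_pr.DimensionDisproof

open Pool.Agent.Helper711.ChaosDefs

universe u

/-- **Negative answer to Q2.**
(1) There are centered laws `ν` of variance one with `∫ x² log⁺|x| dν = ∞`.
(2) For every such law and every `γ` in `(0, 1/3]`, the chaos measures have an almost sure vague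
limit, and every almost sure vague limit is almost surely the zero measure, of dimension `0`.
(3) For standard Gaussian coefficients and every `γ` in `(0, 1/3]`, the chaos measures have an
almost sure vague limit, and its Hausdorff dimension is almost surely at least `1/16`. -/
theorem result :
    (∃ ν : Measure ℝ, IsProbabilityMeasure ν ∧ ∫ x, x ∂ν = 0 ∧ ∫ x, x ^ 2 ∂ν = 1 ∧
      ¬ Integrable (fun x : ℝ => x ^ 2 * Real.posLog x) ν) ∧
    (∀ γ : ℝ, 0 < γ → γ ≤ 1 / 3 →
      (∀ ν : Measure ℝ, IsProbabilityMeasure ν → ∫ x, x ∂ν = 0 → ∫ x, x ^ 2 ∂ν = 1 →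
        ¬ Integrable (fun x : ℝ => x ^ 2 * Real.posLog x) ν →
        ∀ (Ω : Type u) (mΩ : MeasurableSpace Ω) (P : Measure Ω) (_ : IsProbabilityMeasure P)
          (X : ℕ → Ω → ℝ), (∀ k, Measurable (X k)) → iIndepFun X P → (∀ k, P.map (X k) = ν) →
          (∃ μlim : Ω → FiniteMeasure S1, IsChaosLimit P X γ μlim) ∧
          ∀ μlim : Ω → FiniteMeasure S1, IsChaosLimit P X γ μlim →
            ∀ᵐ ω ∂P, μlim ω = 0 ∧ dimMeasure (μlim ω : Measure S1) = 0) ∧
      (∀ (Ω : Type u) (mΩ : MeasurableSpace Ω) (P : Measure Ω) (_ : IsProbabilityMeasure P)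
          (X : ℕ → Ω → ℝ), (∀ k, Measurable (X k)) → iIndepFun X P →
          (∀ k, P.map (X k) = gaussianReal 0 1) →
          (∃ μlim : Ω → FiniteMeasure S1, IsChaosLimit P X γ μlim) ∧
          ∀ μlim : Ω → FiniteMeasure S1, IsChaosLimit P X γ μlim →
            ∀ᵐ ω ∂P, 1 / 16 ≤ dimMeasure (μlim ω : Measure S1))) := by
  refine ⟨Pool.Agent.Helper711.ChaosLaw.exists_law, fun γ h0 h1 => ⟨?_, ?_⟩⟩
  · intro ν hν hmean hvar hlog Ω mΩ P hP X hX hind hlaw
    refine ⟨Pool.Agent.Helper711.ChaosExists.exists_chaosLimit P X ν hX hind hlaw hmean hvar γ, ?_⟩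
    intro μlim hlim
    exact Pool.Agent.Helper711.ChaosExists.heavy_limit P X ν hX hind hlaw hmean hvar hlog γ
      h0.ne' μlim hlim
  · intro Ω mΩ P hP X hX hind hlaw
    refine ⟨Pool.Agent.Helper711.ChaosExists.exists_chaosLimit P X (gaussianReal 0 1) hX hind hlaw
      integral_id_gaussianReal Pool.Agent.Helper711.ChaosExists.integral_sq_gaussianReal γ, ?_⟩
    intro μlim hlim
    refine Pool.Agent.Helper711.ChaosExists.gaussian_limit P X hX hind hlaw γ ?_ μlim hlim
    nlinarith

end Pool.Agent.Results.MP_ab74d4_pr.DimensionDisproof
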